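import Pool.Agent.Helper264.TFDil

/-!
# Reflected Thomas-Fermi density differences are not monotone in the electron number

Nuclei of charge `1` at `0` (in the plane) and at `e0` (in the half space). If the difference
`ρ(x) - ρ(x*)` were monotone in the electron number for all `x`, then the difference of the two
odd potential differences would be a potential of a positive density with the Dirichlet kernel of
the half space, hence at least `c x₀` near `0`. Near the nucleus `0` the densities behave like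
`(1/r)^{3/2}` with relative corrections of order `r`, so the density differences are ordered like
the potential differences, in the opposite direction.
-/

set_option autoImplicit false
open MeasureTheory Set Filter Topology Metric
open scoped RealInnerProductSpace BigOperators ENNReal
open Pool.Agent.Helper557 Pool.Agent.Helper557.TFP Pool.Agent.H9R2.TF Pool.Agent.Helper264.TFDil

namespace Pool.Agent.Results.MP_d10cfe_mp.NotMonotone

noncomputable def zc : Fin 2 → ℝ := ![1, 1]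
noncomputable def Rc : Fin 2 → E3 := ![0, e0]

lemma zc_pos : ∀ j, 0 < zc j := by
  intro j; fin_cases j <;> simp [zc]

lemma zc_nonneg : ∀ j, 0 ≤ zc j := fun j => (zc_pos j).le

lemma VVc (x : E3) : VV zc Rc x = 1 / ‖x‖ + 1 / ‖x - e0‖ := by
  unfold VV zc Rc
  simp [Fin.sum_univ_two]

lemma sg_e0 : sg e0 = - e0 := by
  ext i
  rw [sg_apply]
  by_cases h : i = 0
  · subst h; simp [e0]
  · rw [if_neg h]; simp [e0, h]

lemma sg_zero' : sg (0 : E3) = 0 := sg_fix rfl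

lemma sg_norm (x : E3) : ‖sg x‖ = ‖x‖ := by
  have := sg_dist x 0
  rwa [sg_zero', sub_zero, sub_zero] at this

lemma sg_sub_e0 (x : E3) : ‖sg x - e0‖ = ‖x + e0‖ := by
  rw [sg_dist', sg_e0, sub_neg_eq_add]

noncomputable def bb (x : E3) : ℝ := 1 / ‖x - e0‖ - 1 / ‖x + e0‖

lemma VVc_dif (x : E3) : VV zc Rc x - VV zc Rc (sg x) = bb x := by
  rw [VVc, VVc, sg_norm, sg_sub_e0, bb]; ring

noncomputable def dif (ρ : E3 → ℝ) (y : E3) : ℝ := ρ y - ρ (sg y)

lemma dif_nice {ρ : E3 → ℝ} (h : Nice ρ) : Nice (dif ρ) := nice_sub' h (nice_sg h)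

lemma pot_dif {ρ : E3 → ℝ} (h : Nice ρ) (x : E3) : pot (dif ρ) x = pot ρ x - pot ρ (sg x) := by
  unfold dif
  rw [pot_sub h (nice_sg h), pot_sg]

lemma dif_odd (ρ : E3 → ℝ) (y : E3) : dif ρ (sg y) = - dif ρ y := by
  unfold dif; rw [sg_sg]; ring

lemma norm_sq_sg (x y : E3) : ‖x - sg y‖ ^ 2 = ‖x - y‖ ^ 2 + 4 * x 0 * y 0 := by
  rw [EuclideanSpace.norm_sq_eq, EuclideanSpace.norm_sq_eq, Fin.sum_univ_three, Fin.sum_univ_three]
  simp only [PiLp.sub_apply, sg_apply, Real.norm_eq_abs, sq_abs]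
  simp
  ring

/-- the odd kernel -/
noncomputable def ker (x y : E3) : ℝ := 1 / ‖x - y‖ - 1 / ‖x - sg y‖

lemma ker_eq {x y : E3} (h1 : x ≠ y) (h2 : x ≠ sg y) :
    ker x y = 4 * x 0 * y 0 / ((‖x - sg y‖ + ‖x - y‖) * (‖x - y‖ * ‖x - sg y‖)) := by
  have a1 : 0 < ‖x - y‖ := norm_pos_iff.2 (sub_ne_zero.2 h1)
  have a2 : 0 < ‖x - sg y‖ := norm_pos_iff.2 (sub_ne_zero.2 h2)
  have h := norm_sq_sg x y
  unfold ker
  rw [eq_div_iff (by positivity)]
  field_simp
  nlinarith [h]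

lemma pot_odd {η : E3 → ℝ} (hη : Nice η) (hodd : ∀ y, η (sg y) = - η y) (x : E3) :
    Integrable (fun y => η y * ker x y) ∧ pot η x = 1/2 * ∫ y, η y * ker x y := by
  obtain ⟨B, hB⟩ := nice_bound η hη
  have i1 := (hB x).1
  have i2 : Integrable (fun y => η y / ‖x - sg y‖) := by
    have h := sg_intble i1
    refine h.neg.congr (Eventually.of_forall (fun y => ?_))
    simp only [Pi.neg_apply]
    rw [hodd]; ring
  have e1 : pot η x = - ∫ y, η y / ‖x - sg y‖ := by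
    unfold pot
    rw [← sg_int (fun y => η y / ‖x - y‖), ← integral_neg]
    congr 1
    funext y
    rw [hodd]; ring
  have e2 : (fun y => η y * ker x y) = fun y => η y / ‖x - y‖ - η y / ‖x - sg y‖ := by
    funext y; unfold ker; ring
  refine ⟨by rw [e2]; exact i1.sub i2, ?_⟩
  rw [e2, integral_sub i1 i2]
  have e3 : ∫ y, η y / ‖x - y‖ = pot η x := rfl
  have e4 : ∫ y, η y / ‖x - sg y‖ = - pot η x := by rw [e1]; ring
  rw [e3, e4]; ring

lemma ae_ne (p : E3) : ∀ᵐ y : E3, y ≠ p := by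
  rw [ae_iff]
  simp

lemma integrand_nonneg {η : E3 → ℝ} (hodd : ∀ y, η (sg y) = - η y)
    (hpos : ∀ y, 0 < y 0 → y ≠ e0 → 0 ≤ η y) {x : E3} (hx : 0 < x 0) :
    ∀ᵐ y, 0 ≤ η y * ker x y := by
  filter_upwards [ae_ne x, ae_ne (sg x), ae_ne e0, ae_ne (-e0), offT] with y h1 h2 h3 h4 h5
  have h2' : x ≠ sg y := fun h => h2 (by rw [h, sg_sg])
  have hk := ker_eq (Ne.symm h1) h2'
  have hD : 0 ≤ (‖x - sg y‖ + ‖x - y‖) * (‖x - y‖ * ‖x - sg y‖) := by positivity
  rcases lt_or_gt_of_ne h5 with h | h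
  · have hy : 0 ≤ η (sg y) := hpos (sg y) (by rw [sg_zero]; linarith) (fun e => h4 (by
      rw [← sg_e0, ← e, sg_sg]))
    rw [hodd] at hy
    rw [hk]
    apply mul_nonneg_of_nonpos_of_nonpos (by linarith)
    apply div_nonpos_of_nonpos_of_nonneg _ hD
    nlinarith
  · rw [hk]
    apply mul_nonneg (hpos y h h3)
    positivity

lemma pot_odd_nonneg {η : E3 → ℝ} (hη : Nice η) (hodd : ∀ y, η (sg y) = - η y)
    (hpos : ∀ y, 0 < y 0 → y ≠ e0 → 0 ≤ η y) {x : E3} (hx : 0 < x 0) : 0 ≤ pot η x := by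
  rw [(pot_odd hη hodd x).2]
  have := integral_nonneg_of_ae (integrand_nonneg hodd hpos hx)
  linarith

lemma ball_e0 {y : E3} (h : y ∈ ball e0 (1/2)) : 1/2 < y 0 ∧ ‖y‖ < 3/2 := by
  rw [mem_ball, dist_eq_norm] at h
  constructor
  · have h1 := abs_coord (y - e0) 0
    have h2 := neg_abs_le ((y - e0) 0)
    have h3 : (y - e0) 0 = y 0 - 1 := by simp [e0]
    rw [h3] at h1 h2
    linarith
  · have : ‖y‖ ≤ ‖y - e0‖ + ‖e0‖ := by
      have := norm_add_le (y - e0) e0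
      rwa [sub_add_cancel] at this
    rw [e0_norm] at this
    linarith

lemma int_pos {g : E3 → ℝ} {s : ℝ} (hs : 0 < s) (hi : IntegrableOn g (ball e0 s))
    (h : ∀ y ∈ ball e0 s, y ≠ e0 → 0 < g y) : 0 < ∫ y in ball e0 s, g y := by
  have hae : 0 ≤ᵐ[volume.restrict (ball e0 s)] g := by
    rw [EventuallyLE, ae_restrict_iff' measurableSet_ball]
    filter_upwards [ae_ne e0] with y hy hyb
    exact (h y hyb hy).le
  rw [setIntegral_pos_iff_support_of_nonneg_ae hae hi]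
  have hsub : ball e0 s \ {e0} ⊆ Function.support g ∩ ball e0 s := by
    rintro y ⟨hy, hy'⟩
    exact ⟨(h y hy hy').ne', hy⟩
  refine lt_of_lt_of_le ?_ (measure_mono hsub)
  rw [measure_sdiff_null (measure_singleton e0)]
  exact measure_ball_pos volume e0 hs

lemma pot_odd_lower {η : E3 → ℝ} (hη : Nice η) (hodd : ∀ y, η (sg y) = - η y)
    (hpos : ∀ y, 0 < y 0 → y ≠ e0 → 0 ≤ η y) {s : ℝ} (hs : 0 < s) (hs1 : s ≤ 1/2)
    (hstr : ∀ y ∈ ball e0 s, y ≠ e0 → 0 < η y) :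
    ∃ c > 0, ∀ x : E3, 0 < x 0 → ‖x‖ ≤ 1 → c * x 0 ≤ pot η x := by
  have hI := int_pos hs hη.2.1.integrableOn hstr
  refine ⟨1/2 * (8/125) * ∫ y in ball e0 s, η y, by positivity, fun x hx hx1 => ?_⟩
  obtain ⟨hi, he⟩ := pot_odd hη hodd x
  rw [he]
  have h1 : ∫ y in ball e0 s, η y * ker x y ≤ ∫ y, η y * ker x y :=
    setIntegral_le_integral hi (integrand_nonneg hodd hpos hx)
  have h2 : ∫ y in ball e0 s, (8/125 * x 0) * η y ≤ ∫ y in ball e0 s, η y * ker x y := by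
    refine setIntegral_mono_on_ae (hη.2.1.integrableOn.const_mul _) hi.integrableOn measurableSet_ball ?_
    filter_upwards [ae_ne x, ae_ne (sg x), ae_ne e0] with y a1 a2 a3 hy
    have a2' : x ≠ sg y := fun h => a2 (by rw [h, sg_sg])
    have hy2 : y ∈ ball e0 (1/2) := ball_subset_ball hs1 hy
    obtain ⟨b1, b2⟩ := ball_e0 hy2
    have n1 : 0 < ‖x - y‖ := norm_pos_iff.2 (sub_ne_zero.2 (Ne.symm a1))
    have n2 : 0 < ‖x - sg y‖ := norm_pos_iff.2 (sub_ne_zero.2 a2')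
    have m1 : ‖x - y‖ ≤ 5/2 := by have := norm_sub_le x y; linarith
    have m2 : ‖x - sg y‖ ≤ 5/2 := by have := norm_sub_le x (sg y); rw [sg_norm] at this; linarith
    rw [ker_eq (Ne.symm a1) a2', mul_comm]
    refine mul_le_mul_of_nonneg_left ?_ (hstr y hy a3).le
    rw [le_div_iff₀ (by positivity)]
    have m3 : (‖x - sg y‖ + ‖x - y‖) * (‖x - y‖ * ‖x - sg y‖) ≤ 5 * (5/2 * (5/2)) := by
      refine mul_le_mul (by linarith) (mul_le_mul m1 m2 n2.le (by norm_num)) (by positivity) (by norm_num)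
    have m4 : 8/125 * x 0 * ((‖x - sg y‖ + ‖x - y‖) * (‖x - y‖ * ‖x - sg y‖)) ≤ 8/125 * x 0 * (5 * (5/2 * (5/2))) :=
      mul_le_mul_of_nonneg_left m3 (by positivity)
    nlinarith [mul_pos hx (sub_pos.2 b1)]
  rw [integral_const_mul] at h2
  nlinarith [h1, h2]

/-- reflected potential differences are nonnegative -/
lemma f_nonneg {Φ : ℝ} {ρ : E3 → ℝ} (hρ : ELs zc Rc Φ ρ) {x : E3} (hx : 0 < x 0) (hx1 : x ≠ e0) :
    0 ≤ bb x - pot (dif ρ) x := by
  have nd := dif_nice hρ.nice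
  have key := cmp_half (k := 1) (fun _ => 1) (fun _ => -1) (fun _ => e0) (fun _ => - e0) (nice_neg nd)
    (fun _ => by norm_num) (fun _ => by simp [e0])
  have hV : ∀ y : E3, VV (k := 1) (fun _ => (1:ℝ)) (fun _ => e0) y + VV (k := 1) (fun _ => (-1:ℝ)) (fun _ => - e0) y
      + pot (fun z => - dif ρ z) y = bb y - pot (dif ρ) y := by
    intro y
    unfold VV bb
    rw [pot_neg]
    simp only [Finset.univ_unique, Finset.sum_const, Finset.card_singleton, one_smul, sub_neg_eq_add]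
    ring
  have h1 := key (by
    intro y hy
    rw [hV]
    have e1 : sg y = y := sg_fix hy
    have e2 : bb y = 0 := by rw [← VVc_dif, e1, sub_self]
    rw [e2, pot_dif hρ.nice, e1]; simp) (Eventually.of_forall (fun y hy hlt => by
    rw [hV, ← VVc_dif, pot_dif hρ.nice] at hlt
    have : ρ y ≤ ρ (sg y) := by
      rw [hρ.eq y, hρ.eq (sg y)]
      exact be_mono (by linarith)
    unfold dif; linarith)) x hx (fun j _ => hx1)
  rwa [hV] at h1

lemma dif_nonneg {Φ : ℝ} {ρ : E3 → ℝ} (hρ : ELs zc Rc Φ ρ) {y : E3} (hy : 0 < y 0) (hy1 : y ≠ e0) : 0 ≤ dif ρ y := by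
  have h := f_nonneg hρ hy hy1
  rw [← VVc_dif, pot_dif hρ.nice] at h
  unfold dif
  have : ρ (sg y) ≤ ρ y := by
    rw [hρ.eq y, hρ.eq (sg y)]
    exact be_mono (by linarith)
  linarith

lemma be_lower {u v : ℝ} (hv : 0 ≤ v) (h : v ≤ u) : 3/2 * √v * (u - v) ≤ be u - be v := by
  rw [be_sqrt, be_sqrt, max_eq_left hv, max_eq_left (hv.trans h)]
  have e1 : √v ^ 2 = v := Real.sq_sqrt hv
  have e2 : √u ^ 2 = u := Real.sq_sqrt (hv.trans h)
  have h1 : √v ≤ √u := Real.sqrt_le_sqrt h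
  have h0 := Real.sqrt_nonneg v
  nlinarith [mul_nonneg (mul_nonneg (sub_nonneg.2 h1) (sub_nonneg.2 h1)) (add_nonneg (h0.trans h1) h0),
    mul_nonneg (mul_nonneg (sub_nonneg.2 h1) (sub_nonneg.2 h1)) h0]

lemma be_strict {u v : ℝ} (hu : 0 < u) (h : v < u) : be v < be u := by
  unfold be
  rw [max_eq_left hu.le]
  exact Real.rpow_lt_rpow (le_max_right _ _) (max_lt h hu) (by norm_num)

lemma bb_le {x : E3} (hx : 0 < x 0) (h : ‖x‖ ≤ 1/2) : bb x ≤ 16 * x 0 := by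
  have h1 : 1/2 ≤ ‖x - e0‖ := by
    have := norm_sub_norm_le e0 x
    rw [e0_norm, norm_sub_rev] at this
    linarith
  have h2 : 1/2 ≤ ‖x + e0‖ := by
    have := norm_sub_norm_le e0 (-x)
    rw [e0_norm, norm_neg, sub_neg_eq_add, add_comm] at this
    linarith
  have h3 : ‖x + e0‖ ^ 2 = ‖x - e0‖ ^ 2 + 4 * x 0 := by
    have := norm_sq_sg x e0
    rw [sg_e0, sub_neg_eq_add] at this
    rw [this]; simp [e0]
  unfold bb
  set p := ‖x - e0‖
  set q := ‖x + e0‖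
  have hp : 0 < p := by linarith
  have hq : 0 < q := by linarith
  rw [div_sub_div _ _ hp.ne' hq.ne', div_le_iff₀ (by positivity)]
  have h4 : q - p ≤ 4 * x 0 := by
    have : (q - p) * (q + p) = 4 * x 0 := by nlinarith
    have h5 : p ≤ q := by nlinarith
    nlinarith
  have h5 : (1/2) * (1/2) ≤ p * q := mul_le_mul h1 h2 (by norm_num) hp.le
  nlinarith [mul_pos hx (mul_pos hp hq), mul_le_mul_of_nonneg_left h5 (mul_nonneg (by norm_num : (0:ℝ) ≤ 16) hx.le)]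

/-- the main computation -/
theorem core {Φ Φ' B : ℝ} {ρ ρ' : E3 → ℝ} (hΦ : 3 ≤ Φ) (hρ : ELs zc Rc Φ ρ) (hB0 : 0 ≤ B) (hB : ∀ x, |pot ρ x| ≤ B)
    (hΦ' : Φ' = Φ + B + 1) (hρ' : ELs zc Rc Φ' ρ') :
    (∃ x : E3, 0 < x 0 ∧ x ≠ 0 ∧ x ≠ e0 ∧ ρ x - ρ (sg x) < ρ' x - ρ' (sg x)) ∧
    (0 < ∫ x, ρ' x) ∧ (∫ x, ρ' x) < ∫ x, ρ x := by
  obtain ⟨hm1, hm2⟩ := EL_mono hρ' hρ (by linarith)
  have p0 : ∀ x, 0 ≤ pot ρ' x := pot_nonneg hρ'.nonneg
  have p1 : ∀ x, pot ρ x ≤ B := fun x => (le_abs_self _).trans (hB x)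
  have p2 : ∀ x, pot ρ' x ≤ B := fun x => (pot_mono hρ'.nice hρ.nice hm2 x).trans (p1 x)
  -- near `e0`
  have near : ∀ (C : ℝ), 0 ≤ C → ∀ y ∈ ball e0 (1 / (C + 2)), y ≠ e0 → C < VV zc Rc y := by
    intro C hC y hy hne
    rw [mem_ball, dist_eq_norm] at hy
    have h0 : 0 < ‖y - e0‖ := norm_pos_iff.2 (sub_ne_zero.2 hne)
    have h1 : C + 2 < 1 / ‖y - e0‖ := by rwa [lt_div_iff₀ h0, mul_comm, ← lt_div_iff₀ (by linarith)]
    rw [VVc]
    have : 0 ≤ 1 / ‖y‖ := by positivity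
    linarith
  set C0 := B + Φ' with hC0
  have hC00 : 0 ≤ C0 := by rw [hC0, hΦ']; linarith
  set s := 1 / (C0 + 2) with hs
  have hs0 : 0 < s := by positivity
  have hs1 : s ≤ 1/2 := by
    rw [hs]; exact one_div_le_one_div_of_le (by norm_num) (by linarith)
  have hρ'pos : ∀ y ∈ ball e0 s, y ≠ e0 → 0 < ρ' y := by
    intro y hy hne
    have h1 := near C0 hC00 y hy hne
    rw [hρ'.eq]
    have h2 : 0 < VV zc Rc y - pot ρ' y - Φ' := by have := p2 y; linarith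
    have := be_strict h2 h2
    rwa [be_zero_of le_rfl] at this
  have hlt : ∀ y ∈ ball e0 s, y ≠ e0 → ρ' y < ρ y := by
    intro y hy hne
    have h1 := near C0 hC00 y hy hne
    rw [hρ'.eq, hρ.eq]
    refine be_strict ?_ ?_
    · have := p1 y; linarith
    · have h3 := p1 y
      have h4 := p0 y
      linarith
  have hsgz : ∀ y ∈ ball e0 (1/2), ρ (sg y) = 0 := by
    intro y hy
    obtain ⟨b1, b2⟩ := ball_e0 hy
    rw [hρ.eq]
    apply be_zero_of
    have h1 : 1/2 ≤ ‖sg y‖ := by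
      rw [sg_norm]
      have := abs_coord y 0
      have := le_abs_self (y 0)
      linarith
    have h2 : 1 ≤ ‖sg y - e0‖ := by
      rw [sg_sub_e0]
      have := abs_coord (y + e0) 0
      have h3 := le_abs_self ((y + e0) 0)
      have h4 : (y + e0) 0 = y 0 + 1 := by simp [e0]
      rw [h4] at this h3
      linarith
    have h3 : 1 / ‖sg y‖ ≤ 2 := by
      rw [div_le_iff₀ (by linarith)]; linarith
    have h4 : 1 / ‖sg y - e0‖ ≤ 1 := by
      rw [div_le_iff₀ (by linarith)]; linarith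
    rw [VVc]
    have := pot_nonneg hρ.nonneg (sg y)
    linarith
  refine ⟨?_, ?_, ?_⟩
  · by_contra hcon
    have H : ∀ x : E3, 0 < x 0 → x ≠ e0 → dif ρ' x ≤ dif ρ x := by
      intro x hx hne
      by_contra hc
      refine hcon ⟨x, hx, fun h => ?_, hne, ?_⟩
      · rw [h] at hx; simp at hx
      · unfold dif at hc; linarith
    set δ : E3 → ℝ := fun y => ρ y - ρ' y with hδ
    have nδ : Nice δ := nice_sub' hρ.nice hρ'.nice
    set η : E3 → ℝ := dif δ with hη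
    have nη : Nice η := dif_nice nδ
    have ηe : ∀ y, η y = dif ρ y - dif ρ' y := by intro y; simp only [hη, hδ, dif]; ring
    have ηodd : ∀ y, η (sg y) = - η y := dif_odd δ
    have ηpos : ∀ y, 0 < y 0 → y ≠ e0 → 0 ≤ η y := by
      intro y hy hne; rw [ηe]; have := H y hy hne; linarith
    have ηstr : ∀ y ∈ ball e0 s, y ≠ e0 → 0 < η y := by
      intro y hy hne
      have h1 := hlt y hy hne
      have h2 := hsgz y (ball_subset_ball hs1 hy)
      have h3 : ρ' (sg y) = 0 := le_antisymm ((hm2 _).trans h2.le) (hρ'.nonneg _)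
      rw [ηe]; unfold dif
      rw [h2, h3]; linarith
    obtain ⟨c, hc, hcl⟩ := pot_odd_lower nη ηodd ηpos hs0 hs1 ηstr
    have potη : ∀ x, pot η x = pot (dif ρ) x - pot (dif ρ') x := by
      intro x
      rw [← pot_sub (dif_nice hρ.nice) (dif_nice hρ'.nice)]
      congr 1
      funext y; exact ηe y
    set θ := c / 32 with hθ
    have hθ0 : 0 < θ := by positivity
    set r : ℝ := min (1/2) (2 * θ / ((C0 + 1) * (1 + 2 * θ))) with hr
    have hr0 : 0 < r := by positivity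
    have hr1 : r ≤ 1/2 := min_le_left _ _
    have hr2 : r * ((C0 + 1) * (1 + 2 * θ)) ≤ 2 * θ := by
      have := min_le_right (1/2) (2 * θ / ((C0 + 1) * (1 + 2 * θ)))
      rwa [← hr, le_div_iff₀ (by positivity)] at this
    set x : E3 := r • e0 with hx
    have hx0 : x 0 = r := by simp [hx, e0]
    have hxn : ‖x‖ = r := by rw [hx, norm_smul, e0_norm, mul_one, Real.norm_of_nonneg hr0.le]
    have hxne : x ≠ e0 := by
      intro h
      have : ‖x‖ = 1 := by rw [h, e0_norm]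
      linarith
    have hxpos : 0 < x 0 := by rw [hx0]; exact hr0
    have hg := hcl x hxpos (by rw [hxn]; linarith)
    rw [potη] at hg
    have hf0 := f_nonneg hρ hxpos hxne
    have hf'0 := f_nonneg hρ' hxpos hxne
    have hfb : bb x - pot (dif ρ) x ≤ 16 * x 0 := by
      have h1 := bb_le hxpos (by rw [hxn]; exact hr1)
      have h2 := pot_odd_nonneg (dif_nice hρ.nice) (dif_odd ρ) (fun y hy hne => dif_nonneg hρ hy hne) hxpos
      linarith
    set f := bb x - pot (dif ρ) x with hf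
    set f' := bb x - pot (dif ρ') x with hf'
    have hgf : c * x 0 ≤ f' - f := by rw [hf, hf']; linarith
    have hθf : θ * f ≤ (f' - f) / 2 := by
      have : θ * f ≤ θ * (16 * x 0) := mul_le_mul_of_nonneg_left hfb hθ0.le
      have e : θ * (16 * x 0) = c * x 0 / 2 := by rw [hθ]; ring
      linarith
    have hgpos : 0 < f' - f := lt_of_lt_of_le (mul_pos hc hxpos) hgf
    -- the values
    have eρ : ρ x - ρ (sg x) = be (VV zc Rc x - pot ρ x - Φ) - be ((VV zc Rc x - pot ρ x - Φ) - f) := by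
      rw [hρ.eq x, hρ.eq (sg x)]
      congr 2
      rw [hf, ← VVc_dif, pot_dif hρ.nice]; ring
    have eρ' : ρ' x - ρ' (sg x) = be ((VV zc Rc (sg x) - pot ρ' (sg x) - Φ') + f') - be (VV zc Rc (sg x) - pot ρ' (sg x) - Φ') := by
      rw [hρ'.eq x, hρ'.eq (sg x)]
      congr 2
      rw [hf', ← VVc_dif, pot_dif hρ'.nice]; ring
    set u := VV zc Rc x - pot ρ x - Φ with hu
    set v' := VV zc Rc (sg x) - pot ρ' (sg x) - Φ' with hv'
    have hu1 : u ≤ 1 / r := by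
      have h1 : 1/2 ≤ ‖x - e0‖ := by
        have := norm_sub_norm_le e0 x
        rw [e0_norm, norm_sub_rev, hxn] at this
        linarith
      have h2 : 1 / ‖x - e0‖ ≤ 2 := by rw [div_le_iff₀ (by linarith)]; linarith
      have h3 := pot_nonneg hρ.nonneg x
      rw [hu, VVc, hxn]; linarith
    have hv1 : 1 / r - C0 ≤ v' := by
      have h1 : 0 ≤ 1 / ‖sg x - e0‖ := by positivity
      have h2 := p2 (sg x)
      rw [hv', VVc, sg_norm, hxn, hC0]; linarith
    have hkey : 1 / r ≤ v' * (1 + θ) ^ 2 := by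
      have h1 : C0 * (1 + 2 * θ) ≤ 2 * θ * (1 / r) := by
        rw [mul_one_div, le_div_iff₀ hr0]
        nlinarith [hr2, mul_pos hr0 (show 0 < 1 + 2 * θ by linarith)]
      have h2 : 1 / r ≤ (1 / r - C0) * (1 + 2 * θ) := by nlinarith
      have h3 : 0 < 1 / r := by positivity
      have h4 : 0 < 1 / r - C0 := by
        by_contra h
        have : (1 / r - C0) * (1 + 2 * θ) ≤ 0 := mul_nonpos_of_nonpos_of_nonneg (not_lt.1 h) (by linarith)
        linarith
      have h5 : (1 / r - C0) * (1 + 2 * θ) ≤ v' * (1 + 2 * θ) := mul_le_mul_of_nonneg_right hv1 (by linarith)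
      have h6 : 0 < v' := by linarith
      nlinarith [mul_pos h6 (mul_pos hθ0 hθ0)]
    have hv0 : 0 < v' := by
      by_contra h
      have : v' * (1 + θ) ^ 2 ≤ 0 := mul_nonpos_of_nonpos_of_nonneg (not_lt.1 h) (by positivity)
      have h3 : 0 < 1 / r := by positivity
      linarith
    have hsq : √(max u 0) ≤ √v' * (1 + θ) := by
      have h1 : √(max u 0) ≤ √(v' * (1 + θ) ^ 2) := Real.sqrt_le_sqrt ((max_le hu1 (by positivity)).trans hkey)
      rwa [Real.sqrt_mul hv0.le, Real.sqrt_sq (by linarith)] at h1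
    have hf'pos : 0 ≤ f' := by linarith
    have k1 := be_lip (u := u) (v := u - f) (by linarith)
    have k2 := be_lower hv0.le (show v' ≤ v' + f' by linarith)
    rw [sub_sub_cancel] at k1
    rw [add_sub_cancel_left] at k2
    have k3 : √(max u 0) * f ≤ √v' * (1 + θ) * f := mul_le_mul_of_nonneg_right hsq hf0
    have hsv : 0 < √v' := Real.sqrt_pos.2 hv0
    have k4 : √v' * ((1 + θ) * f) < √v' * f' := mul_lt_mul_of_pos_left (by linarith) hsv
    have k5 := H x hxpos hxne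
    unfold dif at k5
    rw [eρ, eρ'] at k5
    nlinarith [k1, k2, k3, k4, k5]
  · have h1 := int_pos hs0 hρ'.nice.2.1.integrableOn hρ'pos
    exact lt_of_lt_of_le h1 (setIntegral_le_integral hρ'.nice.2.1 (Eventually.of_forall hρ'.nonneg))
  · have h1 := int_pos (g := fun y => ρ y - ρ' y) hs0 (hρ.nice.2.1.sub hρ'.nice.2.1).integrableOn
      (fun y hy hne => sub_pos.2 (hlt y hy hne))
    have h2 : ∫ y in ball e0 s, (ρ y - ρ' y) ≤ ∫ y, (ρ y - ρ' y) :=
      setIntegral_le_integral (hρ.nice.2.1.sub hρ'.nice.2.1) (Eventually.of_forall (fun y => sub_nonneg.2 (hm2 y)))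
    rw [integral_sub hρ.nice.2.1 hρ'.nice.2.1] at h2
    linarith

lemma exists_small : ∃ (Φ : ℝ) (ρ : E3 → ℝ), 3 ≤ Φ ∧ ELs zc Rc Φ ρ ∧ ∫ x, ρ x ≤ 2 := by
  obtain ⟨ρ₂, h₂⟩ := exists_ELs (z := zc) (R := Rc) zc_nonneg (show (0:ℝ) < 3 by norm_num)
  have H : ∀ n : ℕ, ∃ τ, ELs zc Rc (3 + n) τ ∧ ∀ x, τ x ≤ ρ₂ x := fun n =>
    exists_rho h₂ (by have : (0:ℝ) ≤ n := Nat.cast_nonneg n; linarith)
  choose τ hτ hle using H
  have hev : ∀ x, ∀ᶠ n : ℕ in atTop, τ n x = 0 := by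
    intro x
    obtain ⟨N, hN⟩ := exists_nat_gt (VV zc Rc x)
    filter_upwards [eventually_ge_atTop N] with n hn
    rw [(hτ n).eq]
    apply be_zero_of
    have h1 := pot_nonneg (hτ n).nonneg x
    have h2 : (N:ℝ) ≤ n := by exact_mod_cast hn
    linarith
  have t2 : Tendsto (fun n => ∫ x, τ n x) atTop (𝓝 0) := by
    have := tendsto_integral_of_dominated_convergence (F := fun n x => τ n x) (f := fun _ : E3 => (0:ℝ)) (fun x => ρ₂ x)
      (fun n => (hτ n).nice.1.aestronglyMeasurable) h₂.nice.2.1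
      (fun n => Eventually.of_forall (fun x => by
        rw [Real.norm_of_nonneg ((hτ n).nonneg x)]
        exact hle n x))
      (Eventually.of_forall (fun x => by
        refine tendsto_const_nhds.congr' ?_
        filter_upwards [hev x] with n hn
        rw [hn]))
    rwa [integral_zero] at this
  obtain ⟨n, hn⟩ := (t2.eventually (gt_mem_nhds (show (0:ℝ) < 2 by norm_num))).exists
  exact ⟨3 + n, τ n, by have : (0:ℝ) ≤ n := Nat.cast_nonneg n; linarith, hτ n, hn.le⟩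

/-! ### the statement -/

/-- The densities: nonnegative functions in `L¹ ∩ L^{5/3}` of `ℝ³`. -/
def Density (ρ : EuclideanSpace ℝ (Fin 3) → ℝ) : Prop :=
  (∀ x, 0 ≤ ρ x) ∧ Integrable ρ ∧ Integrable (fun x => ρ x ^ (5/3 : ℝ))

/-- The nuclear potential `V(x) = ∑ z_i |x - R_i|⁻¹` of point nuclei. -/
noncomputable def nuc {k : ℕ} (z : Fin k → ℝ) (R : Fin k → EuclideanSpace ℝ (Fin 3))
    (x : EuclideanSpace ℝ (Fin 3)) : ℝ := ∑ i, z i * ‖x - R i‖⁻¹

/-- The Thomas-Fermi functional. -/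
noncomputable def TFfun {k : ℕ} (γ : ℝ) (z : Fin k → ℝ) (R : Fin k → EuclideanSpace ℝ (Fin 3))
    (ρ : EuclideanSpace ℝ (Fin 3) → ℝ) : ℝ :=
  3/5 * γ * (∫ x, ρ x ^ (5/3 : ℝ)) - (∫ x, nuc z R x * ρ x) + 1/2 * (∫ x, ∫ y, ρ x * ρ y / ‖x - y‖)

/-- `ρ` is the Thomas-Fermi density with electron number `lam`: it minimises the Thomas-Fermi
functional among densities of integral `lam`, and it satisfies the Thomas-Fermi equation at every
point that is not a nucleus. -/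
structure IsTF {k : ℕ} (γ : ℝ) (z : Fin k → ℝ) (R : Fin k → EuclideanSpace ℝ (Fin 3)) (lam : ℝ)
    (ρ : EuclideanSpace ℝ (Fin 3) → ℝ) : Prop where
  density : Density ρ
  mass : ∫ x, ρ x = lam
  minimal : ∀ σ, Density σ → ∫ x, σ x = lam → TFfun γ z R ρ ≤ TFfun γ z R σ
  equation : ∃ μ : ℝ, 0 ≤ μ ∧ ∀ x, (∀ i, x ≠ R i) →
    γ * ρ x ^ (2/3 : ℝ) = max (nuc z R x - (∫ y, ρ y / ‖x - y‖) - μ) 0

/-- The mirror image of `x` in the plane `x₀ = 0`. -/
noncomputable def mirror (x : EuclideanSpace ℝ (Fin 3)) : EuclideanSpace ℝ (Fin 3) :=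
  x - (2 * x 0) • EuclideanSpace.single 0 1

lemma mirror_eq (x : E3) : mirror x = sg x := by
  ext i
  rw [sg_apply]
  unfold mirror
  by_cases h : i = 0
  · subst h; simp; ring
  · rw [if_neg h]; simp [h]

lemma sg_smul (c : ℝ) (x : E3) : sg (c • x) = c • sg x := by
  ext i
  rw [PiLp.smul_apply, sg_apply, sg_apply]
  by_cases h : i = 0
  · subst h; simp
  · rw [if_neg h, if_neg h]; simp

lemma nuc_eq {k : ℕ} (z : Fin k → ℝ) (R : Fin k → E3) (x : E3) : nuc z R x = VV z R x := by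
  unfold nuc VV
  exact Finset.sum_congr rfl (fun i _ => by rw [div_eq_mul_inv])

lemma TFfun_congr {k : ℕ} (γ : ℝ) (z : Fin k → ℝ) (R : Fin k → E3) {f g : E3 → ℝ} (h : f =ᵐ[volume] g) :
    TFfun γ z R f = TFfun γ z R g := by
  unfold TFfun
  have e1 : ∫ x, f x ^ (5/3 : ℝ) = ∫ x, g x ^ (5/3 : ℝ) := by
    refine integral_congr_ae ?_
    filter_upwards [h] with x hx
    rw [hx]
  have e2 : ∫ x, nuc z R x * f x = ∫ x, nuc z R x * g x := by
    refine integral_congr_ae ?_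
    filter_upwards [h] with x hx
    rw [hx]
  have e3 : (∫ x, (∫ y, f x * f y / ‖x - y‖)) = ∫ x, (∫ y, g x * g y / ‖x - y‖) := by
    refine integral_congr_ae ?_
    filter_upwards [h] with x hx
    refine integral_congr_ae ?_
    filter_upwards [h] with y hy
    rw [hx, hy]
  rw [e1, e2, e3]

lemma TFfun_sc {k : ℕ} {γ : ℝ} (hγ : 0 < γ) (z : Fin k → ℝ) (R : Fin k → E3) {σ : E3 → ℝ} (hσ : Adm σ) :
    TFfun γ z (fun j => γ • R j) (sc γ⁻¹ σ) = γ⁻¹ * EF z R σ := by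
  have hγ' : 0 < γ⁻¹ := inv_pos.2 hγ
  unfold TFfun EF
  rw [TF_E1_dbl, sc_kin hγ' hσ.2.1, sc_D hγ']
  have e1 : (fun x => nuc z (fun j => γ • R j) x * sc γ⁻¹ σ x)
      = fun x => VV z (fun j => (γ⁻¹)⁻¹ • R j) x * sc γ⁻¹ σ x := by
    funext x
    rw [nuc_eq, inv_inv]
  rw [e1, sc_VV hγ' z R σ]
  field_simp

lemma sc_sc {t : ℝ} (ht : t ≠ 0) (ρ : E3 → ℝ) : sc t⁻¹ (sc t ρ) = ρ := by
  funext x
  simp only [sc]
  rw [smul_smul, mul_inv_cancel₀ ht, one_smul]
  field_simp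

lemma isTF_of_ELs {k : ℕ} {γ : ℝ} (hγ : 0 < γ) {z : Fin k → ℝ} {R : Fin k → E3} {Φ : ℝ} (hΦ : 0 ≤ Φ) {ρ : E3 → ℝ}
    (hρ : ELs z R Φ ρ) : IsTF γ z (fun j => γ • R j) (∫ x, ρ x) (sc γ⁻¹ ρ) := by
  have hγ' : 0 < γ⁻¹ := inv_pos.2 hγ
  have aρ := adm_of_nice hρ.nice hρ.nonneg
  have hs := sc_adm hγ' aρ
  refine ⟨⟨hs.2.1, hs.2.2.1, hs.2.2.2⟩, sc_mass hγ' ρ, ?_, γ⁻¹ * Φ, by positivity, ?_⟩
  · intro σ hσ hm
    obtain ⟨τ, hτ, hae⟩ := AA_mod (ρ := σ) hσ
    rw [TFfun_congr γ z _ hae, TFfun_sc hγ z R aρ]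
    have hτs := sc_adm hγ hτ
    have e := TFfun_sc hγ z R hτs
    rw [sc_sc hγ.ne'] at e
    rw [e]
    refine mul_le_mul_of_nonneg_left ?_ hγ'.le
    have h1 := EL_min hρ hτs
    have h2 : ∫ x, sc γ τ x = ∫ x, ρ x := by
      rw [sc_mass hγ, ← hm]; exact (integral_congr_ae hae).symm
    rw [h2] at h1
    linarith
  · intro x _
    have e1 : (∫ y, sc γ⁻¹ ρ y / ‖x - y‖) = pot (sc γ⁻¹ ρ) x := rfl
    have e2 : nuc z (fun j => γ • R j) x = γ⁻¹ * VV z R (γ⁻¹ • x) := by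
      rw [nuc_eq]
      unfold VV
      rw [Finset.mul_sum]
      refine Finset.sum_congr rfl (fun j _ => ?_)
      have h1 := norm_sc hγ' x (R j)
      rw [inv_inv] at h1
      rw [h1]
      rcases eq_or_ne ‖x - γ • R j‖ 0 with h | h
      · rw [h]; simp
      · field_simp
    rw [e1, sc_pot hγ', e2]
    simp only [sc]
    rw [hρ.eq, Real.mul_rpow (by positivity) (be_nonneg _), be_pow]
    have e3 : ((γ⁻¹) ^ 3) ^ (2/3 : ℝ) = (γ⁻¹) ^ 2 := by
      rw [← Real.rpow_natCast, ← Real.rpow_natCast, ← Real.rpow_mul hγ'.le]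
      norm_num
    rw [e3]
    have e4 : γ⁻¹ * VV z R (γ⁻¹ • x) - γ⁻¹ * pot ρ (γ⁻¹ • x) - γ⁻¹ * Φ
        = γ⁻¹ * (VV z R (γ⁻¹ • x) - pot ρ (γ⁻¹ • x) - Φ) := by ring
    rw [e4, ← mul_zero γ⁻¹, ← mul_max_of_nonneg _ _ hγ'.le, mul_zero]
    field_simp

/-- **Reflected Thomas-Fermi density differences are not monotone in the electron number.** For every
`γ > 0` there are two point nuclei, the first in the plane `x₀ = 0` and the second in the open half
space `x₀ > 0`, electron numbers `0 < lam' < lam ≤ Z`, and a point `x` with `x₀ > 0`, not a nucleus,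
such that `ρ_lam(x) - ρ_lam(x*) < ρ_lam'(x) - ρ_lam'(x*)`. -/
theorem result : ∀ γ : ℝ, 0 < γ → ∃ (z : Fin 2 → ℝ) (R : Fin 2 → EuclideanSpace ℝ (Fin 3)),
    (∀ i, 0 < z i) ∧ (R 0) 0 = 0 ∧ 0 < (R 1) 0 ∧
    ∃ (lam' lam : ℝ) (ρ' ρ : EuclideanSpace ℝ (Fin 3) → ℝ), 0 < lam' ∧ lam' < lam ∧ lam ≤ z 0 + z 1 ∧
      IsTF γ z R lam' ρ' ∧ IsTF γ z R lam ρ ∧
      ∃ x : EuclideanSpace ℝ (Fin 3), 0 < x 0 ∧ (∀ i, x ≠ R i) ∧ ρ x - ρ (mirror x) < ρ' x - ρ' (mirror x) := by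
  intro γ hγ
  have hγ' : 0 < γ⁻¹ := inv_pos.2 hγ
  obtain ⟨Φ, ρ, hΦ, hρ, hm⟩ := exists_small
  obtain ⟨B, hB0, hB⟩ := pot_bdd hρ.nice
  obtain ⟨ρ', hρ'⟩ := exists_ELs (z := zc) (R := Rc) zc_nonneg (show (0:ℝ) < Φ + B + 1 by linarith)
  obtain ⟨⟨x, hx0, hx1, hx2, hx3⟩, h1, h2⟩ := core hΦ hρ hB0 hB rfl hρ'
  refine ⟨zc, fun j => γ • Rc j, zc_pos, by simp [Rc], ?_, ∫ x, ρ' x, ∫ x, ρ x, sc γ⁻¹ ρ', sc γ⁻¹ ρ, h1, h2, ?_,
    isTF_of_ELs hγ (by linarith) hρ', isTF_of_ELs hγ (by linarith) hρ, γ • x, ?_, ?_, ?_⟩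
  · simp [Rc, e0, hγ]
  · refine hm.trans (le_of_eq ?_)
    simp [zc]; norm_num
  · simp only [PiLp.smul_apply, smul_eq_mul]; positivity
  · intro i h
    have h3 : x = Rc i := by
      have := congrArg (fun v => γ⁻¹ • v) h
      simpa [smul_smul, inv_mul_cancel₀ hγ.ne'] using this
    fin_cases i
    · exact hx1 (by simpa [Rc] using h3)
    · exact hx2 (by simpa [Rc] using h3)
  · rw [mirror_eq, sg_smul]
    simp only [sc]
    rw [inv_smul_smul₀ hγ.ne', inv_smul_smul₀ hγ.ne', ← mul_sub, ← mul_sub]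
    exact mul_lt_mul_of_pos_left hx3 (by positivity)

end Pool.Agent.Results.MP_d10cfe_mp.NotMonotone
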